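import Pool.Agent.helper73.AD.Card

/-!
Module CARD of the project ad: the limit directions of a pre-family are isotropic and independent,
so there are at most card J of them.
-/

namespace Pool.Agent.helper73.AD

open scoped BigOperators Topology

/-- an independent isotropic family has at most card J members -/
theorem CARD_lin {J K : Type} [Fintype J] [DecidableEq J] [Fintype K] [DecidableEq K]
    (e : K → PS J) (hiso : ∀ k m, om (e k) (e m) = 0) (hind : LinearIndependent ℝ e) :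
    Fintype.card K ≤ Fintype.card J := by
  classical
  let Φ : PS J →ₗ[ℝ] (K → ℝ) :=
    LinearMap.pi (fun k => (omL (e k) : PS J →L[ℝ] ℝ).toLinearMap)
  have hΦ : ∀ z k, Φ z k = om (e k) z := fun z k => rfl
  have hsurj : LinearMap.range Φ = ⊤ := by
    by_contra hne
    obtain ⟨f, hf0, hf⟩ := Submodule.exists_le_ker_of_lt_top (LinearMap.range Φ)
      (lt_top_iff_ne_top.mpr hne)
    apply hf0
    have hz : ∀ z : PS J, ∑ k, f (Pi.single k 1) * om (e k) z = 0 := by
      intro z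
      have h1 : f (Φ z) = 0 := hf (LinearMap.mem_range_self Φ z)
      have h2 : Φ z = ∑ k, (om (e k) z) • (Pi.single k (1 : ℝ) : K → ℝ) := by
        ext m
        rw [hΦ]
        simp [Finset.sum_apply, Pi.single_apply]
      rw [h2, map_sum] at h1
      rw [← h1]
      refine Finset.sum_congr rfl fun k _ => ?_
      rw [map_smul, smul_eq_mul, mul_comm]
    have h0 : ∑ k, f (Pi.single k 1) • e k = 0 := by
      refine eq_zero_of_om _ fun y => ?_
      rw [om_sum_left]
      rw [← hz y]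
      exact Finset.sum_congr rfl fun k _ => om_smul_left _ _ _
    have hc := Fintype.linearIndependent_iff.mp hind _ h0
    refine LinearMap.pi_ext' fun k => ?_
    ext
    simpa using hc k
  have hrank := LinearMap.finrank_range_add_finrank_ker Φ
  rw [hsurj, finrank_top] at hrank
  have hK : Module.finrank ℝ (K → ℝ) = Fintype.card K := Module.finrank_fintype_fun_eq_card ℝ
  have hP : Module.finrank ℝ (PS J) = Fintype.card J + Fintype.card J := by
    rw [Module.finrank_prod, Module.finrank_fintype_fun_eq_card]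
  rw [hK, hP] at hrank
  have hker : Fintype.card K ≤ Module.finrank ℝ (LinearMap.ker Φ) := by
    have hle : Submodule.span ℝ (Set.range e) ≤ LinearMap.ker Φ := by
      rw [Submodule.span_le]
      rintro _ ⟨m, rfl⟩
      rw [SetLike.mem_coe, LinearMap.mem_ker]
      ext k
      rw [hΦ, hiso]; rfl
    have h1 := Submodule.finrank_mono hle
    rwa [finrank_span_eq_card hind] at h1
  omega

theorem CARD_zero_of_le (a B : ℝ) (h : ∀ s : ℝ, 0 ≤ s → |a| ≤ B * Real.exp (-s)) : a = 0 := by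
  have h1 : Filter.Tendsto (fun s : ℝ => B * Real.exp (-s)) Filter.atTop (𝓝 (B * 0)) :=
    (Real.tendsto_exp_neg_atTop_nhds_zero).const_mul B
  have h2 : |a| ≤ B * 0 := by
    refine ge_of_tendsto h1 ?_
    filter_upwards [Filter.eventually_ge_atTop (0 : ℝ)] with s hs
    exact h s hs
  rw [mul_zero] at h2
  exact abs_nonpos_iff.mp h2

section

variable {J K : Type} [Fintype J] [DecidableEq J] [Fintype K] [DecidableEq K] {w : K → Word J}

theorem CARD_C1 (Φ : PreFamily w) (k : K) : 0 < Φ.C1 := by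
  have h1 := Φ.ang1 0 k 0
  have h2 := Φ.ang2 0 k 0
  simp at h1 h2
  linarith

theorem CARD_lev (hBF : BF_stmt) (Φ : PreFamily w) (k : K) : 0 < Φ.lev k := by
  rw [← Φ.level 0 k]
  exact (hBF J (w k) (Φ.Z 0) (Φ.mem 0)).2.1

omit [Fintype K] [DecidableEq K] in
theorem CARD_contDiff (hGS : GS_stmt) (hBF : BF_stmt) (k : K) :
    ContDiffOn ℝ 2 (w k).H (Cone J) :=
  (hGS J).2.2.2.2 (w k) fun z hz => (hBF J (w k) z hz).1

/-- the Hamiltonian fields are pairwise orthogonal -/
theorem CARD_iso (hGS : GS_stmt) (hBF : BF_stmt) (Φ : PreFamily w) (T : K → ℝ) (k m : K) :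
    om (sg (fderiv ℝ (w k).H (Φ.Z T))) (sg (fderiv ℝ (w m).H (Φ.Z T))) = 0 := by
  rw [om_sg]
  have h1 : HasFDerivAt (w k).H (fderiv ℝ (w k).H (Φ.Z T)) (Φ.Z T) :=
    (((CARD_contDiff hGS hBF k).contDiffAt (Cone_mem_nhds (Φ.mem T))).differentiableAt
      (by norm_num)).hasFDerivAt
  have h2 := h1.comp T (Φ.dZ T)
  have h3 : HasFDerivAt ((w k).H ∘ Φ.Z) (0 : (K → ℝ) →L[ℝ] ℝ) T := by
    have h4 : ((w k).H ∘ Φ.Z) = fun _ => Φ.lev k := funext fun T => Φ.level T k
    rw [h4]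
    exact hasFDerivAt_const _ _
  have h4 := h2.unique h3
  have h5 := DFunLike.congr_fun h4 (Pi.single m 1)
  simp only [ContinuousLinearMap.comp_apply, sum_apply,
    ContinuousLinearMap.smulRight_apply, ContinuousLinearMap.proj_apply,
    zero_apply] at h5
  have h6 : ∑ x : K, (Pi.single m (1 : ℝ) : K → ℝ) x • sg (fderiv ℝ (w x).H (Φ.Z T))
      = sg (fderiv ℝ (w m).H (Φ.Z T)) := by
    rw [Finset.sum_eq_single m]
    · simp
    · intro b _ hb
      simp [hb]
    · simp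
  rwa [h6] at h5

/-- uniform constants -/
theorem CARD_ep (hBF : BF_stmt) (hXA : XA_stmt) (Φ : PreFamily w) (k : K) :
    ∃ C : ℝ, 0 < C ∧ ∀ T : K → ℝ,
      ‖sg (fderiv ℝ (w k).H (Φ.Z T)) - (w k).e‖ ≤ C * Real.exp (-(T k)) := by
  obtain ⟨CX, hCX, hX⟩ := hXA J (w k) (Φ.lev k) (CARD_lev hBF Φ k)
  refine ⟨CX * Φ.C1, mul_pos hCX (CARD_C1 Φ k), fun T => ?_⟩
  have h1 := (hX (Φ.Z T) (Φ.mem T) (Φ.level T k)).1 _ (Φ.ang1 T k)
  rw [mul_assoc]
  exact h1

theorem CARD_box (hBF : BF_stmt) (hBX : BX_stmt) (Φ : PreFamily w) (k : K) :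
    ∃ C : ℝ, 0 < C ∧ ∀ T : K → ℝ,
      Φ.lev k - om (w k).e (Φ.Z T) ≤ C * Real.exp (-(T k)) ∧
      Φ.lev k + om (w k).e (Φ.Z T) ≤ C * Real.exp (T k) := by
  obtain ⟨CB, hCB, hB⟩ := hBX J (w k) (Φ.lev k) (CARD_lev hBF Φ k)
  refine ⟨CB * Φ.C1, mul_pos hCB (CARD_C1 Φ k), fun T => ?_⟩
  obtain ⟨b1, b2, -⟩ := hB (Φ.Z T) (Φ.mem T) (Φ.level T k)
  have y1 := b1 _ (Φ.ang1 T k)
  have y2 := b2 _ (Φ.ang2 T k)
  rw [mul_assoc, mul_assoc]
  exact ⟨y1, y2⟩

theorem CARD_isoe (hGS : GS_stmt) (hBF : BF_stmt) (hXA : XA_stmt) (Φ : PreFamily w) (k m : K) :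
    om (w k).e (w m).e = 0 := by
  obtain ⟨Ck, hCk, hk⟩ := CARD_ep hBF hXA Φ k
  obtain ⟨Cm, hCm, hm⟩ := CARD_ep hBF hXA Φ m
  set D : ℝ := 2 * Fintype.card J with hD
  have hD0 : 0 ≤ D := by positivity
  refine CARD_zero_of_le _ (D * Ck * ‖(w m).e‖ + D * (‖(w k).e‖ + Ck) * Cm) ?_
  intro s hs
  have hk' := hk (fun _ => s)
  have hm' := hm (fun _ => s)
  have h0 := CARD_iso hGS hBF Φ (fun _ => s) k m
  set Xk := sg (fderiv ℝ (w k).H (Φ.Z fun _ => s)) with hXk
  set Xm := sg (fderiv ℝ (w m).H (Φ.Z fun _ => s)) with hXm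
  have hexp1 : Real.exp (-s) ≤ 1 := by
    rw [Real.exp_le_one_iff]; linarith
  have hexp0 : 0 < Real.exp (-s) := Real.exp_pos _
  have hXkn : ‖Xk‖ ≤ ‖(w k).e‖ + Ck := by
    have h1 : ‖Xk‖ ≤ ‖Xk - (w k).e‖ + ‖(w k).e‖ := by
      have := norm_add_le (Xk - (w k).e) ((w k).e)
      simpa using this
    have h2 : Ck * Real.exp (-s) ≤ Ck := by nlinarith
    linarith
  have hsplit : om (w k).e (w m).e
      = -(om (Xk - (w k).e) (w m).e) - om Xk (Xm - (w m).e) := by
    rw [om_sub_left, om_sub_right, h0]; ring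
  rw [hsplit]
  have ha := abs_om_le (Xk - (w k).e) (w m).e
  have hb := abs_om_le Xk (Xm - (w m).e)
  rw [← hD] at ha hb
  have ha' : D * ‖Xk - (w k).e‖ * ‖(w m).e‖ ≤ D * (Ck * Real.exp (-s)) * ‖(w m).e‖ := by
    gcongr
  have hb' : D * ‖Xk‖ * ‖Xm - (w m).e‖
      ≤ D * (‖(w k).e‖ + Ck) * (Cm * Real.exp (-s)) := by
    gcongr
  calc |-(om (Xk - (w k).e) (w m).e) - om Xk (Xm - (w m).e)|
      ≤ |-(om (Xk - (w k).e) (w m).e)| + |om Xk (Xm - (w m).e)| := abs_sub _ _
    _ = |om (Xk - (w k).e) (w m).e| + |om Xk (Xm - (w m).e)| := by rw [abs_neg]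
    _ ≤ D * (Ck * Real.exp (-s)) * ‖(w m).e‖ + D * (‖(w k).e‖ + Ck) * (Cm * Real.exp (-s)) :=
        add_le_add (ha.trans ha') (hb.trans hb')
    _ = (D * Ck * ‖(w m).e‖ + D * (‖(w k).e‖ + Ck) * Cm) * Real.exp (-s) := by ring

theorem CARD_indep (hBF : BF_stmt) (hBX : BX_stmt) (Φ : PreFamily w) :
    LinearIndependent ℝ fun k => (w k).e := by
  choose C hC hbox using CARD_box hBF hBX Φ
  have hlev := CARD_lev hBF Φ
  rw [Fintype.linearIndependent_iff]
  intro c hc
  have hsum : ∑ k, |c k| * Φ.lev k = 0 := by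
    refine CARD_zero_of_le _ (∑ k, |c k| * C k) ?_
    intro s hs
    have hnn : 0 ≤ ∑ k, |c k| * Φ.lev k :=
      Finset.sum_nonneg fun k _ => mul_nonneg (abs_nonneg _) (hlev k).le
    rw [abs_of_nonneg hnn, Finset.sum_mul]
    set T : K → ℝ := fun k => if 0 ≤ c k then s else -s with hT
    have hz : ∑ k, c k * om (w k).e (Φ.Z T) = 0 := by
      have h1 : om (∑ k, c k • (w k).e) (Φ.Z T) = 0 := by rw [hc, om_zero_left]
      rw [om_sum_left] at h1
      rw [← h1]
      exact Finset.sum_congr rfl fun k _ => by rw [om_smul_left]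
    have hle : ∀ k ∈ (Finset.univ : Finset K),
        |c k| * Φ.lev k - |c k| * C k * Real.exp (-s) ≤ c k * om (w k).e (Φ.Z T) := by
      intro k _
      by_cases h : 0 ≤ c k
      · have h1 := (hbox k T).1
        have h2 : T k = s := by simp [hT, h]
        rw [h2] at h1
        rw [abs_of_nonneg h]
        nlinarith
      · push Not at h
        have h1 := (hbox k T).2
        have h2 : T k = -s := by simp [hT, not_le.mpr h]
        rw [h2] at h1
        rw [abs_of_neg h]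
        nlinarith
    have h3 := Finset.sum_le_sum hle
    rw [hz, Finset.sum_sub_distrib] at h3
    linarith
  intro k
  have h4 := (Finset.sum_eq_zero_iff_of_nonneg (fun k _ =>
    mul_nonneg (abs_nonneg (c k)) (hlev k).le)).mp hsum k (Finset.mem_univ k)
  rcases mul_eq_zero.mp h4 with h | h
  · exact abs_eq_zero.mp h
  · exact absurd h (hlev k).ne'

end

/-- CARD: the limit directions are isotropic and independent, so card K is at most card J -/
theorem CARD_of (hGS : GS_stmt) (hBF : BF_stmt) (hBX : BX_stmt) (hXA : XA_stmt) : CARD_stmt := by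
  intro J K _ _ _ _ w Φ
  exact CARD_lin (fun k => (w k).e) (fun k m => CARD_isoe hGS hBF hXA Φ k m)
    (CARD_indep hBF hBX Φ)

end Pool.Agent.helper73.AD
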